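import Pool.Agent.W387.R.Stm

/-!
Normal forms: detecting a vertex group of an amalgam
-/

set_option autoImplicit false

namespace Pool.Agent.W554.RA

open Pool.Agent.W387 Pool.Agent.W387.RA

section free

variable {X : Type}

/-- the reduced word of `x` starts with the letter `q` to the power `s` -/
def SS (x : FreeGroup X) (q : X) (s : Bool) : Prop :=
  ∃ W : List (X × Bool), FreeGroup.IsReduced ((q, s) :: W) ∧ x = FreeGroup.mk ((q, s) :: W)

/-- the reduced word of `x` does not start with `q` -/
def NS (x : FreeGroup X) (q : X) : Prop :=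
  ∃ W : List (X × Bool), FreeGroup.IsReduced W ∧ x = FreeGroup.mk W ∧ ∀ s W', W ≠ (q, s) :: W'

theorem NS_one (q : X) : NS (1 : FreeGroup X) q :=
  ⟨[], FreeGroup.IsReduced.nil, rfl, fun s W' h => by simp at h⟩

theorem SS.toNS {x : FreeGroup X} {q q' : X} {s : Bool} (h : SS x q s) (hq : q ≠ q') : NS x q' := by
  obtain ⟨W, h1, h2⟩ := h
  refine ⟨_, h1, h2, fun s' W' h => hq ?_⟩
  rw [List.cons.injEq, Prod.mk.injEq] at h
  exact h.1.1

theorem mk_red_one {W : List (X × Bool)} (h : FreeGroup.IsReduced W)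
    (h1 : FreeGroup.mk W = 1) : W = [] := by
  have h2 : FreeGroup.mk W = FreeGroup.mk [] := h1
  obtain ⟨L, h3, h4⟩ := FreeGroup.Red.exact.mp h2
  rw [FreeGroup.Red.nil_iff] at h4
  subst h4
  exact (h.red_iff_eq.mp h3).symm

theorem SS.ne_one {x : FreeGroup X} {q : X} {s : Bool} (h : SS x q s) : x ≠ 1 := by
  obtain ⟨W, h1, h2⟩ := h
  intro h3
  rw [h3] at h2
  have := mk_red_one h1 h2.symm
  simp at this

theorem SS.cons {x : FreeGroup X} {q : X} {s : Bool} (h : SS x q s) :
    SS (FreeGroup.mk [(q, s)] * x) q s := by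
  obtain ⟨W, h1, h2⟩ := h
  refine ⟨(q, s) :: W, ?_, ?_⟩
  · rw [FreeGroup.isReduced_cons_cons]
    exact ⟨fun _ => rfl, h1⟩
  · rw [h2, FreeGroup.mul_mk, List.singleton_append]

theorem NS.cons {x : FreeGroup X} {q : X} (h : NS x q) (s : Bool) :
    SS (FreeGroup.mk [(q, s)] * x) q s := by
  obtain ⟨W, h1, h2, h3⟩ := h
  refine ⟨W, ?_, ?_⟩
  · cases W with
    | nil => exact FreeGroup.IsReduced.singleton
    | cons y W =>
      rw [FreeGroup.isReduced_cons_cons]
      refine ⟨fun h => ?_, h1⟩
      exfalso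
      refine h3 y.2 W ?_
      have : (y : X × Bool) = (q, y.2) := by
        change q = y.1 at h
        rw [h]
      rw [← this]
  · rw [h2, FreeGroup.mul_mk, List.singleton_append]

theorem SS.pow {x : FreeGroup X} {q : X} {s : Bool} (h : NS x q) (n : ℕ) :
    SS ((FreeGroup.mk [(q, s)]) ^ (n + 1) * x) q s := by
  induction n with
  | zero =>
    rw [zero_add, pow_one]
    exact h.cons s
  | succ n ih =>
    rw [pow_succ', mul_assoc]
    exact ih.cons

theorem SS.zpow {x : FreeGroup X} {q : X} (h : NS x q) (n : ℤ) (hn : n ≠ 0) :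
    ∃ s, SS ((FreeGroup.of q) ^ n * x) q s := by
  rcases lt_trichotomy n 0 with h1 | h1 | h1
  · obtain ⟨m, hm⟩ : ∃ m : ℕ, n = -((m + 1 : ℕ) : ℤ) := ⟨(-n - 1).toNat, by omega⟩
    refine ⟨false, ?_⟩
    have h2 := SS.pow (s := false) h m
    have h3 : (FreeGroup.mk [(q, false)] : FreeGroup X) = (FreeGroup.of q)⁻¹ := rfl
    rw [h3, inv_pow, ← zpow_natCast, ← zpow_neg, ← hm] at h2
    exact h2
  · exact absurd h1 hn
  · obtain ⟨m, hm⟩ : ∃ m : ℕ, n = ((m + 1 : ℕ) : ℤ) := ⟨(n - 1).toNat, by omega⟩
    refine ⟨true, ?_⟩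
    have h2 := SS.pow (s := true) h m
    have h3 : (FreeGroup.mk [(q, true)] : FreeGroup X) = (FreeGroup.of q) := rfl
    rw [h3, ← zpow_natCast, ← hm] at h2
    exact h2

end free

section act

variable {G : Type} [Group G] (Z : Subgroup G)

/-- translation of words -/
def trw (g : G) (W : List ((G ⧸ Z) × Bool)) : List ((G ⧸ Z) × Bool) :=
  W.map (fun x => (g • x.1, x.2))

theorem thAct_mk (g : G) (W : List ((G ⧸ Z) × Bool)) :
    thAct Z g (FreeGroup.mk W) = FreeGroup.mk (trw Z g W) := by
  induction W with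
  | nil => exact map_one _
  | cons x W ih =>
    obtain ⟨q, s⟩ := x
    have e1 : ∀ (x : (G ⧸ Z) × Bool) (W : List ((G ⧸ Z) × Bool)),
        FreeGroup.mk (x :: W) = FreeGroup.mk [x] * FreeGroup.mk W := fun x W => by
      rw [FreeGroup.mul_mk, List.singleton_append]
    have e2 : trw Z g ((q, s) :: W) = (g • q, s) :: trw Z g W := rfl
    have e4 : thAct Z g (FreeGroup.mk [(q, s)]) = FreeGroup.mk [(g • q, s)] := by
      cases s
      · have e3 : ∀ q : G ⧸ Z, FreeGroup.mk [(q, false)] = (FreeGroup.of q)⁻¹ := fun q => rfl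
        rw [e3, e3, map_inv, thAct_of]
      · exact thAct_of Z g q
    rw [e1, map_mul, ih, e2, e1 (g • q, s), e4]

theorem trw_red (g : G) (W : List ((G ⧸ Z) × Bool)) (h : FreeGroup.IsReduced W) :
    FreeGroup.IsReduced (trw Z g W) := by
  unfold FreeGroup.IsReduced trw
  rw [List.isChain_map]
  refine List.IsChain.imp ?_ h
  intro a b hab h1
  exact hab (MulAction.injective g h1)

theorem SS.act {x : FreeGroup (G ⧸ Z)} {q : G ⧸ Z} {s : Bool} (h : SS x q s) (g : G) :
    SS (thAct Z g x) (g • q) s := by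
  obtain ⟨W, h1, h2⟩ := h
  refine ⟨trw Z g W, trw_red Z g _ h1, ?_⟩
  rw [h2, thAct_mk]
  rfl

theorem NS.act {x : FreeGroup (G ⧸ Z)} {q : G ⧸ Z} (h : NS x q) (g : G) :
    NS (thAct Z g x) (g • q) := by
  obtain ⟨W, h1, h2, h3⟩ := h
  refine ⟨trw Z g W, trw_red Z g _ h1, by rw [h2, thAct_mk], ?_⟩
  intro s W' h4
  cases W with
  | nil => simp [trw] at h4
  | cons y W =>
    have h5 : (g • y.1, y.2) = (g • q, s) := by
      have : trw Z g (y :: W) = (g • y.1, y.2) :: trw Z g W := rfl
      rw [this, List.cons.injEq] at h4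
      exact h4.1
    rw [Prod.mk.injEq] at h5
    have h6 : y.1 = q := MulAction.injective g h5.1
    exact h3 y.2 W (by rw [← h6])

end act

section main

variable {G : Type} [Group G] (C M : Subgroup G) (h : G →* Multiplicative ℤ) (Θ : G →* TH C)

/-- normal forms -/
inductive Rep : G → Prop
  | base (m : G) (hm : m ∈ M) : Rep m
  | step (m c r : G) (hm : m ∈ M) (hc : c ∈ C) (hh : h c ≠ 1) (hr : Rep r)
      (hs : NS (Θ r).left ((1 : G) : G ⧸ C)) : Rep (m * c * r)

theorem stmNF : StmNF := by
  intro G _ C M h Θ hCM hhM hhC hΘM hΘC g hg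
  -- the right part
  have hright : ∀ g, (Θ g).right = g := by
    have : (SemidirectProduct.rightHom.comp Θ) = MonoidHom.id G := by
      have heq : (C ⊔ M) ≤ (SemidirectProduct.rightHom.comp Θ).eqLocus (MonoidHom.id G) := by
        rw [sup_le_iff]
        constructor
        · intro c hc
          show (Θ c).right = c
          rw [hΘC c hc, SemidirectProduct.mul_right]
          have : ((thT C) ^ (Multiplicative.toAdd (h c))).right = 1 := by
            have h2 : (thT C) ^ (Multiplicative.toAdd (h c)) =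
                SemidirectProduct.inl ((FreeGroup.of ((1 : G) : G ⧸ C)) ^
                  (Multiplicative.toAdd (h c))) := by
              rw [map_zpow]
              rfl
            rw [h2, SemidirectProduct.right_inl]
          rw [this, mul_one]
          rfl
        · intro m hm
          show (Θ m).right = m
          rw [hΘM m hm]
          rfl
      rw [hCM] at heq
      ext g
      exact heq (Subgroup.mem_top g)
    intro g
    exact DFunLike.congr_fun this g
  have hleft : ∀ g k, (Θ (g * k)).left = (Θ g).left * thAct C g (Θ k).left := by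
    intro g k
    rw [map_mul, SemidirectProduct.mul_left, hright]
  have hleftM : ∀ m ∈ M, (Θ m).left = 1 := by
    intro m hm
    rw [hΘM m hm]
    rfl
  have hact1 : ∀ c ∈ C, c • ((1 : G) : G ⧸ C) = ((1 : G) : G ⧸ C) := by
    intro c hc
    show ((c * 1 : G) : G ⧸ C) = ((1 : G) : G ⧸ C)
    rw [QuotientGroup.eq]
    simpa using hc
  have hleftC : ∀ c ∈ C, (Θ c).left =
      (FreeGroup.of ((1 : G) : G ⧸ C)) ^ (Multiplicative.toAdd (h c)) := by
    intro c hc
    rw [hΘC c hc]
    have h2 : (thT C) ^ (Multiplicative.toAdd (h c)) =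
        SemidirectProduct.inl ((FreeGroup.of ((1 : G) : G ⧸ C)) ^
          (Multiplicative.toAdd (h c))) := by
      rw [map_zpow]
      rfl
    rw [h2, SemidirectProduct.mul_left]
    show (1 : FreeGroup (G ⧸ C)) * thAct C c _ = _
    rw [one_mul, SemidirectProduct.left_inl, map_zpow, thAct_of, hact1 c hc]
  -- the first syllable
  have key : ∀ m ∈ M, ∀ c ∈ C, ∀ r, h c ≠ 1 → NS (Θ r).left ((1 : G) : G ⧸ C) →
      ∃ s, SS (Θ (m * c * r)).left ((m : G) : G ⧸ C) s := by
    intro m hm c hc r hh hs
    have h1 : (Θ (m * c * r)).left = thAct C m ((FreeGroup.of ((1 : G) : G ⧸ C)) ^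
        (Multiplicative.toAdd (h c)) * thAct C c (Θ r).left) := by
      rw [mul_assoc, hleft, hleftM m hm, one_mul, hleft, hleftC c hc]
    have h2 : NS (thAct C c (Θ r).left) ((1 : G) : G ⧸ C) := by
      have := hs.act C c
      rwa [hact1 c hc] at this
    obtain ⟨s, h3⟩ := SS.zpow h2 (Multiplicative.toAdd (h c)) (by
      intro h0
      apply hh
      exact Multiplicative.toAdd.injective h0)
    refine ⟨s, ?_⟩
    have h4 := h3.act C m
    rw [← h1] at h4
    have h5 : m • ((1 : G) : G ⧸ C) = (m : G ⧸ C) := by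
      show ((m * 1 : G) : G ⧸ C) = (m : G ⧸ C)
      rw [mul_one]
    rwa [h5] at h4
  -- closure under left multiplication
  have mulM : ∀ m' ∈ M, ∀ g, Rep C M h Θ g → Rep C M h Θ (m' * g) := by
    intro m' hm' g hg
    cases hg with
    | base m hm => exact Rep.base _ (mul_mem hm' hm)
    | step m c r hm hc hh hr hs =>
      have := Rep.step (C := C) (M := M) (h := h) (Θ := Θ) (m' * m) c r (mul_mem hm' hm) hc hh hr hs
      have e : m' * (m * c * r) = m' * m * c * r := by simp [mul_assoc]
      rw [e]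
      exact this
  have mulC : ∀ c' ∈ C, ∀ g, Rep C M h Θ g → Rep C M h Θ (c' * g) := by
    intro c' hc' g hg
    by_cases hh' : h c' = 1
    · exact mulM c' (hhC c' hc' hh') g hg
    · cases hg with
      | base m hm =>
        have := Rep.step (C := C) (M := M) (h := h) (Θ := Θ) 1 c' g (one_mem _) hc' hh'
          (Rep.base g hm) (by rw [hleftM g hm]; exact NS_one _)
        rwa [one_mul] at this
      | step m c r hm hc hh hr hs =>
        by_cases hmC : m ∈ C
        · have e : c' * (m * c * r) = (c' * m * c) * r := by simp [mul_assoc]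
          rw [e]
          by_cases h0 : h (c' * m * c) = 1
          · exact mulM _ (hhC _ (mul_mem (mul_mem hc' hmC) hc) h0) r hr
          · have := Rep.step (C := C) (M := M) (h := h) (Θ := Θ) 1 (c' * m * c) r (one_mem _)
              (mul_mem (mul_mem hc' hmC) hc) h0 hr hs
            rwa [one_mul] at this
        · obtain ⟨s, hS⟩ := key m hm c hc r hh hs
          have hne : ((m : G) : G ⧸ C) ≠ ((1 : G) : G ⧸ C) := by
            intro h1
            rw [QuotientGroup.eq] at h1
            apply hmC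
            have := inv_mem h1
            simpa using this
          have := Rep.step (C := C) (M := M) (h := h) (Θ := Θ) 1 c' (m * c * r) (one_mem _)
              hc' hh' (Rep.step m c r hm hc hh hr hs) (hS.toNS hne)
          rwa [one_mul] at this
  have hall : ∀ g, Rep C M h Θ g := by
    have h1 : ∀ g ∈ (C ⊔ M), (∀ k, Rep C M h Θ k → Rep C M h Θ (g * k)) ∧
        (∀ k, Rep C M h Θ k → Rep C M h Θ (g⁻¹ * k)) := by
      intro g hg
      rw [Subgroup.sup_eq_closure] at hg
      induction hg using Subgroup.closure_induction with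
      | mem x hx =>
        rcases hx with hx | hx
        · exact ⟨mulC x hx, mulC _ (inv_mem hx)⟩
        · exact ⟨mulM x hx, mulM _ (inv_mem hx)⟩
      | one => exact ⟨fun k hk => by rwa [one_mul], fun k hk => by rwa [inv_one, one_mul]⟩
      | mul x y _ _ hx hy =>
        refine ⟨fun k hk => ?_, fun k hk => ?_⟩
        · rw [mul_assoc]; exact hx.1 _ (hy.1 _ hk)
        · rw [mul_inv_rev, mul_assoc]; exact hy.2 _ (hx.2 _ hk)
      | inv x _ hx =>
        refine ⟨hx.2, fun k hk => ?_⟩
        rw [inv_inv]; exact hx.1 _ hk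
    intro g
    have h2 := (h1 g (by rw [hCM]; exact Subgroup.mem_top g)).1 1 (Rep.base 1 (one_mem _))
    rwa [mul_one] at h2
  cases hall g with
  | base m hm => exact hm
  | step m c r hm hc hh hr hs =>
    obtain ⟨s, hS⟩ := key m hm c hc r hh hs
    exact absurd hg hS.ne_one

end main

end Pool.Agent.W554.RA
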